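import Pool.Agent.H458.AG.Loc

/-!
# An isotropic subspace of dimension `g` (proof of `S_ISO`)
-/

set_option autoImplicit false
set_option linter.all false

open Polynomial
open scoped Classical

namespace Pool.Agent.H945.AG458

open Pool.Agent.H458.AG

section

variable {k : Type} [Field k]

/-- the degree of a member of `degreeLT` -/
theorem deg_lt {n : ℕ} (p : degreeLT k n) : (p : k[X]).degree < (n : ℕ) :=
  mem_degreeLT.1 p.2

/-- the map `(p, r) ↦ a p + e r mod f` -/
noncomputable def Phi (f a e : k[X]) (n₁ n₂ : ℕ) :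
    (degreeLT k n₁ × degreeLT k n₂) →ₗ[k] AdjoinRoot f where
  toFun x := AdjoinRoot.mk f (a * (x.1 : k[X]) + e * (x.2 : k[X]))
  map_add' x y := by
    rw [← map_add]
    congr 1
    simp only [Prod.fst_add, Prod.snd_add, Submodule.coe_add]
    ring
  map_smul' c x := by
    simp only [Prod.smul_fst, Prod.smul_snd, Submodule.coe_smul, RingHom.id_apply]
    rw [AdjoinRoot.smul_mk]
    congr 1
    rw [mul_smul_comm, mul_smul_comm, smul_add]

theorem Phi_apply (f a e : k[X]) (n₁ n₂ : ℕ) (x : degreeLT k n₁ × degreeLT k n₂) :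
    Phi f a e n₁ n₂ x = AdjoinRoot.mk f (a * (x.1 : k[X]) + e * (x.2 : k[X])) := rfl

theorem finrank_degreeLT (n : ℕ) : Module.finrank k (degreeLT k n) = n := by
  rw [LinearEquiv.finrank_eq (degreeLTEquiv k n), Module.finrank_fin_fun]

theorem finite_degreeLT (n : ℕ) : Module.Finite k (degreeLT k n) :=
  Module.Finite.equiv (degreeLTEquiv k n).symm

theorem iso : S_ISO := by
  intro k _ g f u t w c b hf hg hfd hdisc hu hum htu hcop
  set H : k[X] := u * c ^ 2 + 2 * t * c * b + w * b ^ 2 with hH
  set a : k[X] := u * c + t * b with ha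
  set e : k[X] := t * c + w * b with he
  set m : ℕ := u.natDegree with hm
  have hf0 : f ≠ 0 := hf.ne_zero
  have hudeg : u.degree = (m : ℕ) := degree_eq_natDegree hu
  have hfdeg : f.degree = ((2 * g + 1 : ℕ) : WithBot ℕ) := by
    rw [degree_eq_natDegree hf0, hfd]
  have e1 : a ^ 2 - H * u = b ^ 2 * f := by rw [ha, hH, ← hdisc]; ring
  have e2 : a * e - H * t = - (b * c * f) := by rw [ha, he, hH, ← hdisc]; ring
  have e3 : e ^ 2 - H * w = c ^ 2 * f := by rw [he, hH, ← hdisc]; ring
  -- degrees
  have htd : t.degree < (m : ℕ) := by rw [← hudeg]; exact htu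
  have hwd : w.degree ≤ ((2 * g + 1 - m : ℕ) : WithBot ℕ) := by
    by_cases hw : w = 0
    · rw [hw, degree_zero]; exact bot_le
    have h1 : u * w = t ^ 2 - f := by rw [← hdisc]; ring
    have ht2 : (t ^ 2).degree < f.degree := by
      by_cases ht : t = 0
      · rw [ht, zero_pow two_ne_zero, degree_zero, hfdeg]
        exact WithBot.bot_lt_coe _
      · rw [degree_pow, degree_eq_natDegree ht, hfdeg]
        rw [degree_eq_natDegree ht] at htd
        have : t.natDegree < m := by exact_mod_cast htd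
        have h2 : 2 * t.natDegree < 2 * g + 1 := by omega
        rw [nsmul_eq_mul]
        exact_mod_cast h2
    have h2 : (u * w).degree = ((2 * g + 1 : ℕ) : WithBot ℕ) := by
      rw [h1, degree_sub_eq_right_of_degree_lt ht2, hfdeg]
    rw [degree_mul, hudeg, degree_eq_natDegree hw] at h2
    rw [degree_eq_natDegree hw]
    have h3 : m + w.natDegree = 2 * g + 1 := by exact_mod_cast h2
    have h4 : w.natDegree ≤ 2 * g + 1 - m := by omega
    exact_mod_cast h4
  set n₁ : ℕ := (2 * g + 1 - m) / 2 with hn₁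
  set n₂ : ℕ := m / 2 with hn₂
  have hn : n₁ + n₂ = g := by omega
  -- degree of the products
  have hmul : ∀ (x y : k[X]) (i j l : ℕ), x.degree ≤ (i : ℕ) → y.degree < (j : ℕ) → i + j ≤ l →
      (x * y).degree < (l : ℕ) := by
    intro x y i j l hx hy hl
    by_cases hx0 : x = 0
    · rw [hx0, zero_mul, degree_zero]; exact WithBot.bot_lt_coe _
    by_cases hy0 : y = 0
    · rw [hy0, mul_zero, degree_zero]; exact WithBot.bot_lt_coe _
    rw [degree_mul]
    rw [degree_eq_natDegree hx0] at hx ⊢
    rw [degree_eq_natDegree hy0] at hy ⊢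
    have hx' : x.natDegree ≤ i := by exact_mod_cast hx
    have hy' : y.natDegree < j := by exact_mod_cast hy
    have : x.natDegree + y.natDegree < l := by omega
    exact_mod_cast this
  have hmul3 : ∀ (x y z : k[X]) (i j j' l : ℕ), x.degree ≤ (i : ℕ) → y.degree < (j : ℕ) →
      z.degree < (j' : ℕ) → i + j + j' ≤ l + 1 → (x * (y * z)).degree < (l : ℕ) := by
    intro x y z i j j' l hx hy hz hl
    by_cases hx0 : x = 0
    · rw [hx0, zero_mul, degree_zero]; exact WithBot.bot_lt_coe _
    by_cases hy0 : y = 0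
    · rw [hy0, zero_mul, mul_zero, degree_zero]; exact WithBot.bot_lt_coe _
    by_cases hz0 : z = 0
    · rw [hz0, mul_zero, mul_zero, degree_zero]; exact WithBot.bot_lt_coe _
    rw [degree_mul, degree_mul]
    rw [degree_eq_natDegree hx0] at hx ⊢
    rw [degree_eq_natDegree hy0] at hy ⊢
    rw [degree_eq_natDegree hz0] at hz ⊢
    have hx' : x.natDegree ≤ i := by exact_mod_cast hx
    have hy' : y.natDegree < j := by exact_mod_cast hy
    have hz' : z.natDegree < j' := by exact_mod_cast hz
    have : x.natDegree + (y.natDegree + z.natDegree) < l := by omega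
    exact_mod_cast this
  have hadd : ∀ (x y : k[X]) (l : ℕ), x.degree < (l : ℕ) → y.degree < (l : ℕ) →
      (x + y).degree < (l : ℕ) := fun x y l hx hy =>
    lt_of_le_of_lt (degree_add_le x y) (max_lt hx hy)
  have hker : ∀ x : k[X], f ∣ H * x → x.degree < ((2 * g + 1 : ℕ) : WithBot ℕ) → x = 0 := by
    intro x hx hxd
    have h1 : f ∣ x := hcop.symm.dvd_of_dvd_mul_left hx
    by_contra hx0
    have := degree_le_of_dvd h1 hx0
    rw [hfdeg] at this
    exact absurd hxd (not_lt.2 this)
  have hinj : Function.Injective (Phi f a e n₁ n₂) := by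
    rw [← LinearMap.ker_eq_bot, LinearMap.ker_eq_bot']
    rintro ⟨p, r⟩ hpr
    rw [Phi_apply] at hpr
    have hdvd : f ∣ a * (p : k[X]) + e * (r : k[X]) := AdjoinRoot.mk_eq_zero.1 hpr
    have hp := deg_lt p
    have hr := deg_lt r
    have h1 : u * (p : k[X]) + t * (r : k[X]) = 0 := by
      apply hker
      · obtain ⟨q, hq⟩ := hdvd
        refine ⟨a * q - b ^ 2 * (p : k[X]) + b * c * (r : k[X]), ?_⟩
        linear_combination a * hq - (p : k[X]) * e1 - (r : k[X]) * e2
      · apply hadd
        · exact hmul _ _ m n₁ _ hudeg.le hp (by omega)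
        · exact hmul _ _ m n₂ _ htd.le hr (by omega)
    have h2 : t * (p : k[X]) + w * (r : k[X]) = 0 := by
      apply hker
      · obtain ⟨q, hq⟩ := hdvd
        refine ⟨e * q + b * c * (p : k[X]) - c ^ 2 * (r : k[X]), ?_⟩
        linear_combination e * hq - (p : k[X]) * e2 - (r : k[X]) * e3
      · apply hadd
        · exact hmul _ _ m n₁ _ htd.le hp (by omega)
        · exact hmul _ _ (2 * g + 1 - m) n₂ _ hwd hr (by omega)
    have h3 : f * (r : k[X]) = 0 := by
      linear_combination (-(r : k[X])) * hdisc + t * h1 - u * h2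
    have hr0 : (r : k[X]) = 0 := (mul_eq_zero.1 h3).resolve_left hf0
    have hp0 : (p : k[X]) = 0 := by
      rw [hr0, mul_zero, add_zero] at h1
      exact (mul_eq_zero.1 h1).resolve_left hu
    have hp' : p = 0 := Subtype.ext hp0
    have hr' : r = 0 := Subtype.ext hr0
    rw [hp', hr']
    rfl
  have := finite_degreeLT (k := k) n₁
  have := finite_degreeLT (k := k) n₂
  refine ⟨LinearMap.range (Phi f a e n₁ n₂), ?_, ?_⟩
  · rw [LinearMap.finrank_range_of_inj hinj, Module.finrank_prod, finrank_degreeLT,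
      finrank_degreeLT, hn]
  · rintro _ ⟨⟨p, r⟩, rfl⟩ _ ⟨⟨p', r'⟩, rfl⟩ z hz
    rw [Phi_apply, Phi_apply] at hz
    obtain ⟨Z, rfl⟩ := AdjoinRoot.mk_surjective z
    have hp := deg_lt p
    have hr := deg_lt r
    have hp' := deg_lt p'
    have hr' := deg_lt r'
    dsimp only at hz
    rw [← map_mul, ← map_mul, AdjoinRoot.mk_eq_mk] at hz
    set P : k[X] := (p : k[X]) with hP
    set P' : k[X] := (p' : k[X]) with hP'
    set R : k[X] := (r : k[X]) with hR
    set R' : k[X] := (r' : k[X]) with hR'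
    set S : k[X] := u * (P * P') + (t * (P * R') + t * (P' * R)) + w * (R * R') with hS
    have hdvd : f ∣ H * (Z - S) := by
      obtain ⟨q, hq⟩ := hz
      refine ⟨q + (b ^ 2 * (P * P') - b * c * (P * R' + P' * R) + c ^ 2 * (R * R')), ?_⟩
      rw [hS]
      linear_combination hq + (P * P') * e1 + (P * R' + P' * R) * e2 + (R * R') * e3
    have hdvd' : f ∣ Z - S := hcop.symm.dvd_of_dvd_mul_left hdvd
    have hZS : AdjoinRoot.mk f Z = AdjoinRoot.mk f S := AdjoinRoot.mk_eq_mk.2 hdvd'
    have hSd : S.degree < ((2 * g : ℕ) : WithBot ℕ) := by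
      rw [hS]
      apply hadd
      · apply hadd
        · exact hmul3 _ _ _ m n₁ n₁ _ hudeg.le hp hp' (by omega)
        · apply hadd
          · exact hmul3 _ _ _ m n₁ n₂ _ htd.le hp hr' (by omega)
          · exact hmul3 _ _ _ m n₁ n₂ _ htd.le hp' hr (by omega)
      · exact hmul3 _ _ _ (2 * g + 1 - m) n₂ n₂ _ hwd hr hr' (by omega)
    rw [hZS]
    unfold tp
    rw [LinearMap.comp_apply, AdjoinRoot.modByMonicHom_mk, (modByMonic_eq_self_iff hf).2]
    · rw [lcoeff_apply]
      exact coeff_eq_zero_of_degree_lt hSd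
    · rw [hfdeg]
      refine hSd.trans ?_
      exact_mod_cast Nat.lt_succ_self _

end

end Pool.Agent.H945.AG458
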